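import Pool.Agent.Q35.DP.Plan

/-! # Project DP (helper35), job PRIME: points of prime height -/

set_option autoImplicit false
set_option linter.unusedSectionVars false

namespace Pool.Agent.Q177.DP

open MvPolynomial FF Pool.Agent.W603.LV Pool.Agent.TH145.GH Pool.Agent.Y166.DP Pool.Agent.Q35.DP

namespace PRIME

section
variable {k K : Type} [Field k] [Field K] [Algebra k K] [CharZero k] [IsAlgClosed k] [IsFF k K]

theorem finrank_eq_hgt {f : K} (hf : Transcendental k f) :
    (Module.finrank (IntermediateField.adjoin k {f}) K : ℤ) = hgt k f := by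
  obtain ⟨S, hS, hS2⟩ := poles (k := k) hf
  rw [← hS2]
  unfold hgt
  rw [finsum_eq_sum_of_support_subset (s := S)]
  · push_cast
    refine Finset.sum_congr rfl fun P hP => ?_
    have := (hS P).1 hP
    rw [deg_one]
    push_cast
    omega
  · intro P hP
    rw [Function.mem_support] at hP
    rw [Finset.mem_coe, hS]
    by_contra h
    apply hP
    rw [max_eq_right]; omega

theorem exists_pole {f : K} (hf : Transcendental k f) : ∃ P : Place k K, P.ord f < 0 := by
  obtain ⟨S, hS, hS2⟩ := poles (k := k) hf
  have h2 := IsFF.finite hf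
  have h3 : 0 < Module.finrank (IntermediateField.adjoin k {f}) K := Module.finrank_pos
  rw [← hS2] at h3
  obtain ⟨w, hw, -⟩ := Finset.exists_ne_zero_of_sum_ne_zero h3.ne'
  exact ⟨w, (hS w).1 hw⟩

theorem const_of_alg {f : K} (h1 : ¬ Transcendental k f) : ∃ c : k, f = algebraMap k K c := by
  have h1 : IsAlgebraic k f := by
    by_contra hcon; exact h1 hcon
  have h2 := IsAlgClosed.degree_eq_one_of_irreducible k (minpoly.irreducible h1.isIntegral)
  obtain ⟨c, hc⟩ := minpoly.mem_range_of_degree_eq_one k f h2
  exact ⟨c, hc.symm⟩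

/-- A function in `k(f)` whose poles are bounded by those of `f` is in `k + k f`. -/
theorem comb_of_mem {f h : K} (hf : Transcendental k f)
    (hmem : h ∈ IntermediateField.adjoin k {f})
    (hreg : ∀ P : Place k K, Ge P (min 0 (P.ord f)) h) :
    ∃ u v : k, h = algebraMap k K u + algebraMap k K v * f := by
  obtain ⟨P₀, hP₀⟩ := exists_pole hf
  have hf0 : f ≠ 0 := by
    rintro rfl
    rw [P₀.ord_zero] at hP₀
    exact lt_irrefl _ hP₀
  have hq : Ge P₀ 0 (h * f⁻¹) := by
    have h1 := (hreg P₀).mul (g := f⁻¹) (M := - P₀.ord f) (Or.inr (by rw [P₀.ord_inv]))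
    refine h1.mono ?_
    omega
  obtain ⟨c, hc⟩ := exists_const P₀ hq
  set h' := h - algebraMap k K c * f with hh'
  have e1 : h' = (h * f⁻¹ - algebraMap k K c) * f := by
    rw [hh']; field_simp
  have h2 : Ge P₀ (1 + P₀.ord f) h' := by
    rw [e1]
    exact hc.mul (Or.inr le_rfl)
  have h3 : ∀ P : Place k K, Ge P (min 0 (P.ord f)) h' := by
    intro P
    refine (hreg P).sub ?_
    have h4 : Ge P (0 + P.ord f) (algebraMap k K c * f) := (Ge.const c).mul (Or.inr le_rfl)
    exact h4.mono (by omega)
  have h5 : ¬ Transcendental k h' := by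
    intro ht
    have h0' : h' ≠ 0 := by
      intro h0
      exact ht (by rw [h0]; exact isAlgebraic_zero)
    have hle : IntermediateField.adjoin k {h'} ≤ IntermediateField.adjoin k {f} := by
      rw [IntermediateField.adjoin_simple_le_iff]
      exact sub_mem hmem (mul_mem (IntermediateField.algebraMap_mem _ c)
        (IntermediateField.mem_adjoin_simple_self k f))
    have e2 := IntermediateField.relfinrank_mul_finrank_top hle
    have h6 := IsFF.finite ht
    have h7 : 0 < Module.finrank (IntermediateField.adjoin k {h'}) K := Module.finrank_pos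
    have h8 : 0 < IntermediateField.relfinrank (IntermediateField.adjoin k {h'})
        (IntermediateField.adjoin k {f}) := by
      rcases Nat.eq_zero_or_pos (IntermediateField.relfinrank (IntermediateField.adjoin k {h'})
        (IntermediateField.adjoin k {f})) with h | h
      · rw [h, zero_mul] at e2
        omega
      · exact h
    have h9 : Module.finrank (IntermediateField.adjoin k {f}) K ≤
        Module.finrank (IntermediateField.adjoin k {h'}) K := by
      rw [← e2]
      exact Nat.le_mul_of_pos_left _ h8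
    have h10 : hgt k f ≤ hgt k h' := by
      rw [← finrank_eq_hgt hf, ← finrank_eq_hgt ht]
      exact_mod_cast h9
    obtain ⟨T, hT⟩ := exists_supp (k := k) (Finset.univ : Finset (Fin 2)) ![f, h']
    have t1 : ∀ P : Place k K, P.ord f ≠ 0 → P ∈ T := fun P => hT 0 (Finset.mem_univ _) P
    have t2 : ∀ P : Place k K, P.ord h' ≠ 0 → P ∈ T := fun P => hT 1 (Finset.mem_univ _) P
    rw [hgt_finset f T t1, hgt_finset h' T t2] at h10
    apply absurd h10
    rw [not_le]
    refine Finset.sum_lt_sum (fun P _ => ?_) ⟨P₀, t1 P₀ hP₀.ne, ?_⟩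
    · have := (h3 P).resolve_left h0'
      omega
    · have := h2.resolve_left h0'
      omega
  obtain ⟨u, hu⟩ := const_of_alg h5
  refine ⟨u, c, ?_⟩
  rw [← hu, hh']
  ring

/-- the combinations that vanish to a higher order than the minimum -/
def VV (g : Fin 3 → K) (P : Place k K) : Submodule k (Fin 3 → k) where
  carrier := {a | Ge P (mo P g + 1) (∑ i, algebraMap k K (a i) * g i)}
  zero_mem' := by
    show Ge P _ _
    simp only [Pi.zero_apply, map_zero, zero_mul, Finset.sum_const_zero]
    exact Ge.zero
  add_mem' := by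
    intro a b ha hb
    show Ge P _ _
    have e : ∑ i, algebraMap k K ((a + b) i) * g i =
        ∑ i, algebraMap k K (a i) * g i + ∑ i, algebraMap k K (b i) * g i := by
      rw [← Finset.sum_add_distrib]
      refine Finset.sum_congr rfl fun i _ => ?_
      rw [Pi.add_apply, map_add]; ring
    rw [e]
    exact Ge.add ha hb
  smul_mem' := by
    intro c a ha
    show Ge P _ _
    have e : ∑ i, algebraMap k K ((c • a) i) * g i =
        algebraMap k K c * ∑ i, algebraMap k K (a i) * g i := by
      rw [Finset.mul_sum]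
      refine Finset.sum_congr rfl fun i _ => ?_
      rw [Pi.smul_apply, smul_eq_mul, map_mul]; ring
    rw [e]
    have := (Ge.const (P := P) c).mul ha
    rwa [zero_add] at this

theorem VV_ne_top (g : Fin 3 → K) (hg : g ≠ 0) (P : Place k K) : VV g P ≠ ⊤ := by
  intro h
  obtain ⟨i, hi, e⟩ := exists_mo P hg
  have h1 : (Pi.single i 1 : Fin 3 → k) ∈ VV g P := by rw [h]; trivial
  have h2 : Ge P (mo P g + 1) (∑ j, algebraMap k K ((Pi.single i 1 : Fin 3 → k) j) * g j) := h1
  rw [Finset.sum_eq_single i] at h2
  · rw [Pi.single_eq_same, map_one, one_mul] at h2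
    have := h2.resolve_left hi
    omega
  · intro j _ hj
    rw [Pi.single_eq_of_ne hj, map_zero, zero_mul]
  · intro h; exact absurd (Finset.mem_univ _) h

end

end PRIME

open PRIME

theorem prime : StmPrime := by
  intro k K _ _ _ _ _ _ g p hp hht
  classical
  by_contra hcon
  push Not at hcon
  obtain ⟨hlin, i₀, hi₀, hne⟩ := hcon
  have hg : g ≠ 0 := fun h => hi₀ (by rw [h]; rfl)
  have hle : ∀ P : Place k K, mo P g ≤ P.ord (g i₀) := fun P => mo_le P hi₀
  have hfin : {P : Place k K | mo P g < P.ord (g i₀)}.Finite := by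
    refine ((mo_supp (k := k) g).union (finite_support (k := k) (g i₀))).subset ?_
    intro P hP
    by_contra hc
    simp only [Set.mem_union, Set.mem_setOf_eq, not_or, not_not] at hc hP
    omega
  have hsum0 : ∑ᶠ P : Place k K, (P.ord (g i₀) - mo P g) = p := by
    rw [finsum_sub_distrib (finite_support (k := k) (g i₀)) (mo_supp (k := k) g), sum_ord, ← hht]
    unfold ht
    ring
  have hp0 : 0 < p := hp.pos
  obtain ⟨P₁, hP₁⟩ : ∃ P₁ : Place k K, mo P₁ g < P₁.ord (g i₀) := by
    by_contra hc
    push Not at hc
    have : ∀ P : Place k K, P.ord (g i₀) - mo P g = 0 := fun P => by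
      have := hle P
      have := hc P
      omega
    rw [finsum_congr this, finsum_zero] at hsum0
    omega
  obtain ⟨a, ha⟩ : ∃ a : Fin 3 → k, ∀ P : Place k K, mo P g < P.ord (g i₀) → a ∉ VV g P := by
    have h1 : (⊤ : Submodule k (Fin 3 → k)) ∉ hfin.toFinset.image (fun P => VV g P) := by
      intro h
      rw [Finset.mem_image] at h
      obtain ⟨P, -, hP⟩ := h
      exact VV_ne_top g hg P hP
    have h2 := Subspace.biUnion_ne_univ_of_top_notMem h1
    rw [Set.ne_univ_iff_exists_notMem] at h2
    obtain ⟨a, ha⟩ := h2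
    refine ⟨a, fun P hP hmem => ha ?_⟩
    simp only [Set.mem_iUnion]
    exact ⟨VV g P, Finset.mem_image.2 ⟨P, by simpa using hP, rfl⟩, hmem⟩
  set A : K := ∑ i, algebraMap k K (a i) * g i with hA
  have hAge : ∀ P : Place k K, Ge P (mo P g) A := by
    intro P
    refine Ge.sum _ _ fun i _ => ?_
    have := (Ge.const (P := P) (a i)).mul (ge_mo P g i)
    rwa [zero_add] at this
  have hA1 : ∀ P : Place k K, mo P g < P.ord (g i₀) → ¬ Ge P (mo P g + 1) A := fun P hP => ha P hP
  have hA0 : A ≠ 0 := by
    intro h
    exact hA1 P₁ hP₁ (Or.inl h)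
  have hA2 : ∀ P : Place k K, mo P g < P.ord (g i₀) → P.ord A = mo P g := by
    intro P hP
    have h1 := (hAge P).resolve_left hA0
    have h2 : ¬ (mo P g + 1 ≤ P.ord A) := fun h => hA1 P hP (Or.inr h)
    omega
  set f : K := A / g i₀ with hfdef
  have hford : ∀ P : Place k K, P.ord f = P.ord A - P.ord (g i₀) := fun P =>
    P.ord_div hA0 hi₀
  have hmax : ∀ P : Place k K, max (-P.ord f) 0 = P.ord (g i₀) - mo P g := by
    intro P
    have h1 := (hAge P).resolve_left hA0
    have h2 := hle P
    rw [hford]
    by_cases hP : mo P g < P.ord (g i₀)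
    · rw [hA2 P hP]; omega
    · omega
  have hhgt : hgt k f = p := by
    unfold hgt
    rw [finsum_congr hmax, hsum0]
  have hf : Transcendental k f := by
    apply P₁.transcendental_of_ord_ne
    rw [hford, hA2 P₁ hP₁]
    omega
  have hfr : Module.finrank (IntermediateField.adjoin k {f}) K = p := by
    have := finrank_eq_hgt hf
    rw [hhgt] at this
    exact_mod_cast this
  set L := IntermediateField.adjoin k (Set.range fun i => g i / g i₀) with hL
  have hmemL : ∀ i, g i / g i₀ ∈ L := fun i =>
    IntermediateField.subset_adjoin k _ ⟨i, rfl⟩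
  have hfL : f ∈ L := by
    have e : f = ∑ i, algebraMap k K (a i) * (g i / g i₀) := by
      rw [hfdef, hA, Finset.sum_div]
      refine Finset.sum_congr rfl fun i _ => ?_
      rw [mul_div_assoc]
    rw [e]
    exact sum_mem fun i _ => mul_mem (IntermediateField.algebraMap_mem _ _) (hmemL i)
  have hfL' : IntermediateField.adjoin k {f} ≤ L := by
    rw [IntermediateField.adjoin_simple_le_iff]
    exact hfL
  have hmul := IntermediateField.relfinrank_mul_finrank_top hfL'
  rw [hfr] at hmul
  have hL1 : Module.finrank L K ≠ 1 := by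
    intro h
    exact hne (IntermediateField.finrank_eq_one_iff_eq_top.1 h)
  have hrel : IntermediateField.relfinrank (IntermediateField.adjoin k {f}) L = 1 := by
    have hdvd : Module.finrank L K ∣ p := Dvd.intro_left _ hmul
    rcases (Nat.dvd_prime hp).1 hdvd with h | h
    · exact absurd h hL1
    · rw [h] at hmul
      have := Nat.eq_of_mul_eq_mul_right hp0 (hmul.trans (one_mul p).symm)
      exact this
  have hLle : L ≤ IntermediateField.adjoin k {f} := IntermediateField.relfinrank_eq_one_iff.1 hrel
  have hcomb : ∀ i, ∃ u v : k, g i / g i₀ = algebraMap k K u + algebraMap k K v * f := by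
    intro i
    refine comb_of_mem hf (hLle (hmemL i)) fun P => ?_
    by_cases hgi : g i = 0
    · left; rw [hgi, zero_div]
    right
    rw [P.ord_div hgi hi₀]
    have h1 := mo_le P hgi
    have h2 := hmax P
    omega
  choose u v huv using hcomb
  obtain ⟨b, hb0, hb⟩ : ∃ b : Fin 3 → k, b ≠ 0 ∧ ∑ i, b i * u i = 0 ∧ ∑ i, b i * v i = 0 := by
    let φ : (Fin 3 → k) →ₗ[k] (Fin 2 → k) :=
      LinearMap.pi ![∑ i, (u i) • LinearMap.proj i, ∑ i, (v i) • LinearMap.proj i]
    have h1 : LinearMap.ker φ ≠ ⊥ := by
      apply LinearMap.ker_ne_bot_of_finrank_lt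
      simp
    obtain ⟨b, hb, hb0⟩ := Submodule.exists_mem_ne_zero_of_ne_bot h1
    refine ⟨b, hb0, ?_, ?_⟩
    · have := congrFun (LinearMap.mem_ker.1 hb) 0
      simp only [φ, LinearMap.pi_apply, Matrix.cons_val_zero, LinearMap.sum_apply,
        LinearMap.smul_apply, LinearMap.proj_apply, smul_eq_mul, Pi.zero_apply] at this
      rw [← this]
      exact Finset.sum_congr rfl fun i _ => mul_comm _ _
    · have := congrFun (LinearMap.mem_ker.1 hb) 1
      simp only [φ, LinearMap.pi_apply, Matrix.cons_val_one, LinearMap.sum_apply,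
        LinearMap.smul_apply, LinearMap.proj_apply, smul_eq_mul, Pi.zero_apply] at this
      rw [← this]
      exact Finset.sum_congr rfl fun i _ => mul_comm _ _
  apply hlin b hb0
  have e1 : ∀ i, g i = (algebraMap k K (u i) + algebraMap k K (v i) * f) * g i₀ := by
    intro i
    rw [← huv i]; field_simp
  have e2 : ∑ i, algebraMap k K (b i) * g i =
      (algebraMap k K (∑ i, b i * u i) + algebraMap k K (∑ i, b i * v i) * f) * g i₀ := by
    rw [map_sum, map_sum, Finset.sum_mul, ← Finset.sum_add_distrib, Finset.sum_mul]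
    refine Finset.sum_congr rfl fun i _ => ?_
    conv_lhs => rw [e1 i]
    rw [map_mul, map_mul]; ring
  rw [e2, hb.1, hb.2]
  simp

end Pool.Agent.Q177.DP
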