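import Pool.Agent.Q35.DP.Plan

/-! # Project DP (helper35), job RK: the height by minors -/

set_option autoImplicit false
set_option linter.unusedSectionVars false

namespace Pool.Agent.Q177.DP

open MvPolynomial FF Pool.Agent.W603.LV Pool.Agent.TH145.GH Pool.Agent.Y166.DP Pool.Agent.Q35.DP

namespace RK

/-- the structure constants of the functions `fn` -/
def sc {k₀ : Type} [Field k₀] (lam : k₀) (i j l : ℕ) : k₀ :=
  if i = 0 then (if l = j then 1 else 0) else if j = 0 then (if l = i then 1 else 0) else
  if i % 2 = 1 ∨ j % 2 = 1 then (if l = i + j + 1 then 1 else 0) else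
    (if l = i + j + 1 then 1 else 0) - (if l = i + j - 1 then 1 + lam else 0) +
      (if l = i + j - 3 then lam else 0)

theorem fn_odd {A : Type} [CommRing A] (x y : A) (m : ℕ) : fn x y (2 * m + 1) = x ^ (m + 1) := by
  unfold fn
  rw [if_neg (by omega), if_pos (by omega)]
  congr 1
  omega

theorem fn_even {A : Type} [CommRing A] (x y : A) (m : ℕ) : fn x y (2 * m + 2) = x ^ m * y := by
  unfold fn
  rw [if_neg (by omega), if_neg (by omega)]
  congr 2
  omega

theorem fn_zero {A : Type} [CommRing A] (x y : A) : fn x y 0 = 1 := by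
  unfold fn
  rw [if_pos rfl]

theorem sum_single {k₀ K : Type} [Field k₀] [Field K] (φ : k₀ →+* K) (F : ℕ → K) (N m : ℕ)
    (hm : m < N) (a : k₀) :
    ∑ l : Fin N, φ (if (l : ℕ) = m then a else 0) * F l = φ a * F m := by
  rw [Finset.sum_eq_single (⟨m, hm⟩ : Fin N)]
  · rw [if_pos rfl]
  · intro b _ hb
    rw [if_neg (fun h => hb (Fin.ext h)), map_zero, zero_mul]
  · intro h; exact absurd (Finset.mem_univ _) h

/-- the products of the functions `fn` -/
theorem fn_mul {k₀ K : Type} [Field k₀] [Field K] (φ : k₀ →+* K) (lam : k₀) (x y : K)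
    (h : y ^ 2 = x * (x - 1) * (x - φ lam)) (i j N : ℕ) (hN : i + j + 2 ≤ N) :
    fn x y i * fn x y j = ∑ l : Fin N, φ (sc lam i j l) * fn x y l := by
  rcases Nat.eq_zero_or_pos i with rfl | hi
  · simp only [sc, if_true]
    rw [sum_single φ (fun l => fn x y l) N j (by omega), map_one, one_mul, fn_zero, one_mul]
  rcases Nat.eq_zero_or_pos j with rfl | hj
  · simp only [sc, if_true, if_neg hi.ne']
    rw [sum_single φ (fun l => fn x y l) N i (by omega), map_one, one_mul, fn_zero, mul_one]
  by_cases hpar : i % 2 = 1 ∨ j % 2 = 1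
  · simp only [sc, if_neg hi.ne', if_neg hj.ne', if_pos hpar]
    rw [sum_single φ (fun l => fn x y l) N (i + j + 1) (by omega), map_one, one_mul]
    rcases Nat.even_or_odd' i with ⟨a, ha | ha⟩
    · rcases Nat.even_or_odd' j with ⟨b, hb | hb⟩
      · omega
      · obtain ⟨a', rfl⟩ : ∃ a', a = a' + 1 := ⟨a - 1, by omega⟩
        rw [show i = 2 * a' + 2 by omega, hb, show 2 * a' + 2 + (2 * b + 1) + 1 =
          2 * (a' + b + 1) + 2 by ring, fn_even, fn_odd, fn_even]
        ring
    · rcases Nat.even_or_odd' j with ⟨b, hb | hb⟩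
      · obtain ⟨b', rfl⟩ : ∃ b', b = b' + 1 := ⟨b - 1, by omega⟩
        rw [show j = 2 * b' + 2 by omega, ha, show 2 * a + 1 + (2 * b' + 2) + 1 =
          2 * (a + b' + 1) + 2 by ring, fn_even, fn_odd, fn_even]
        ring
      · rw [ha, hb, show 2 * a + 1 + (2 * b + 1) + 1 = 2 * (a + b + 1) + 1 by ring,
          fn_odd, fn_odd, fn_odd]
        ring
  · simp only [sc, if_neg hi.ne', if_neg hj.ne', if_neg hpar]
    obtain ⟨a, ha⟩ : ∃ a, i = 2 * a + 2 := ⟨(i - 2) / 2, by omega⟩
    obtain ⟨b, hb⟩ : ∃ b, j = 2 * b + 2 := ⟨(j - 2) / 2, by omega⟩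
    simp only [map_sub, map_add, sub_mul, add_mul, Finset.sum_sub_distrib,
      Finset.sum_add_distrib]
    rw [sum_single φ (fun l => fn x y l) N (i + j + 1) (by omega),
      sum_single φ (fun l => fn x y l) N (i + j - 1) (by omega),
      sum_single φ (fun l => fn x y l) N (i + j - 3) (by omega)]
    rw [show i + j + 1 = 2 * (a + b + 2) + 1 by omega, show i + j - 1 = 2 * (a + b + 1) + 1 by omega,
      show i + j - 3 = 2 * (a + b) + 1 by omega, fn_odd, fn_odd, fn_odd, ha, hb, fn_even, fn_even,
      map_one, map_add, map_one]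
    linear_combination x ^ (a + b) * h

/-- The dimension of the span of the rows by minors. -/
theorem minors {k R : Type} [Field k] [Fintype R] (N n : ℕ) (A : R → Fin N → k) :
    n ≤ Module.finrank k (Submodule.span k (Set.range A)) ↔
      ∃ (r : Fin n → R) (c : Fin n → Fin N), (Matrix.of fun i j => A (r i) (c j)).det ≠ 0 := by
  constructor
  · intro h
    obtain ⟨f, hf, -, hlin⟩ := Submodule.exists_fun_fin_finrank_span_eq k (Set.range A)
    choose r hr using hf
    have h1 : LinearIndependent k (fun i : Fin n => A (r (Fin.castLE h i))) := by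
      have h2 := hlin.comp (Fin.castLE h) (Fin.castLE_injective h)
      have e : (fun i : Fin n => A (r (Fin.castLE h i))) = f ∘ Fin.castLE h := by
        funext i
        exact hr _
      rw [e]
      exact h2
    set B : Matrix (Fin n) (Fin N) k := Matrix.of fun i l => A (r (Fin.castLE h i)) l with hB
    have h3 : B.rank = n := by
      have h4 : LinearIndependent k B.row := h1
      rw [h4.rank_matrix, Fintype.card_fin]
    rw [Matrix.rank_eq_finrank_span_cols] at h3
    obtain ⟨f', hf', -, hlin'⟩ := Submodule.exists_fun_fin_finrank_span_eq k (Set.range B.col)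
    choose c hc using hf'
    refine ⟨fun i => r (Fin.castLE h i), fun j => c (Fin.cast h3.symm j), ?_⟩
    have h5 : LinearIndependent k
        (Matrix.of fun i j => A (r (Fin.castLE h i)) (c (Fin.cast h3.symm j)) :
          Matrix (Fin n) (Fin n) k).col := by
      have h6 := hlin'.comp (Fin.cast h3.symm) (Fin.cast_injective _)
      have e : (Matrix.of fun i j => A (r (Fin.castLE h i)) (c (Fin.cast h3.symm j)) :
          Matrix (Fin n) (Fin n) k).col = f' ∘ Fin.cast h3.symm := by
        funext j
        show _ = f' (Fin.cast h3.symm j)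
        rw [← hc]
        rfl
      rw [e]
      exact h6
    rw [Matrix.linearIndependent_cols_iff_isUnit, Matrix.isUnit_iff_isUnit_det] at h5
    exact h5.ne_zero
  · rintro ⟨r, c, h⟩
    have h1 : LinearIndependent k (Matrix.of fun i j => A (r i) (c j) :
        Matrix (Fin n) (Fin n) k).row := by
      rw [Matrix.linearIndependent_rows_iff_isUnit, Matrix.isUnit_iff_isUnit_det]
      exact isUnit_iff_ne_zero.2 h
    have h2 : LinearIndependent k (fun i => A (r i)) := by
      apply LinearIndependent.of_comp (LinearMap.funLeft k k c)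
      exact h1
    have h3 := finrank_span_eq_card h2
    rw [Fintype.card_fin] at h3
    rw [← h3]
    exact Submodule.finrank_mono (Submodule.span_mono (by rintro _ ⟨i, rfl⟩; exact ⟨r i, rfl⟩))

end RK

open RK

theorem rk : StmBasis → StmInf → S_RANK → StmRK := by
  intro hbasis hinf hrank k₀ _ lam d e
  let AX : (Fin 3 × Fin (d + 2)) → Fin (2 * d + 3) → MvPolynomial (Fin 3 × Fin (d + 1)) k₀ :=
    fun p l => ∑ j : Fin (d + 1), X (p.1, j) * C (sc lam j p.2 l)
  refine ⟨{F | ∃ (r : Fin (d + 2 + e) → Fin 3 × Fin (d + 2))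
    (c : Fin (d + 2 + e) → Fin (2 * d + 3)), F = (Matrix.of fun i j => AX (r i) (c j)).det}, ?_⟩
  intro k K _ _ _ _ _ _ _ x y hE c hc
  have hr := hrank k K _ x y hE d c hc
  obtain ⟨o, ho, -, -⟩ := hinf k K _ x y hE
  have hb := (hbasis k K _ x y hE o (by rw [ho]; norm_num)).2.1
  let A : (Fin 3 × Fin (d + 2)) → Fin (2 * d + 3) → k :=
    fun p l => ∑ j : Fin (d + 1), c (p.1, j) * algebraMap k₀ k (sc lam j p.2 l)
  let Φ : (Fin (2 * d + 3) → k) →ₗ[k] K :=
    { toFun := fun v => fsum x y v
      map_add' := by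
        intro v w
        unfold fsum
        rw [← Finset.sum_add_distrib]
        refine Finset.sum_congr rfl fun j _ => ?_
        rw [Pi.add_apply, map_add, add_mul]
      map_smul' := by
        intro a v
        unfold fsum
        rw [RingHom.id_apply, Finset.smul_sum]
        refine Finset.sum_congr rfl fun j _ => ?_
        rw [Pi.smul_apply, smul_eq_mul, map_mul, Algebra.smul_def, mul_assoc] }
  have hΦ : Function.Injective Φ := by
    rw [← LinearMap.ker_eq_bot, LinearMap.ker_eq_bot']
    intro v hv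
    exact hb _ v hv
  have hprod : ∀ p : Fin 3 × Fin (d + 2),
      (fsum x y fun j => c (p.1, j)) * fn x y p.2 = Φ (A p) := by
    intro p
    have h1 : ∀ j : Fin (d + 1), fn x y j * fn x y p.2 =
        ∑ l : Fin (2 * d + 3), algebraMap k K (algebraMap k₀ k (sc lam j p.2 l)) * fn x y l := by
      intro j
      have h2 := j.2
      have h3 := p.2.2
      exact fn_mul ((algebraMap k K).comp (algebraMap k₀ k)) lam x y hE.eqn j p.2 (2 * d + 3)
        (by omega)
    show (∑ j : Fin (d + 1), algebraMap k K (c (p.1, j)) * fn x y j) * fn x y p.2 =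
      ∑ l : Fin (2 * d + 3), algebraMap k K (∑ j : Fin (d + 1), c (p.1, j) *
        algebraMap k₀ k (sc lam j p.2 l)) * fn x y l
    simp only [map_sum, map_mul, Finset.sum_mul]
    rw [Finset.sum_comm]
    refine Finset.sum_congr rfl fun j _ => ?_
    rw [mul_assoc, h1, Finset.mul_sum]
    refine Finset.sum_congr rfl fun l _ => ?_
    rw [mul_assoc]
  have hspan : Module.finrank k (Submodule.span k (Set.range fun p : Fin 3 × Fin (d + 2) =>
      (fsum x y fun j => c (p.1, j)) * fn x y p.2)) =
      Module.finrank k (Submodule.span k (Set.range A)) := by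
    have e1 : (Set.range fun p : Fin 3 × Fin (d + 2) =>
        (fsum x y fun j => c (p.1, j)) * fn x y p.2) = Φ '' (Set.range A) := by
      rw [← Set.range_comp]
      congr 1
      funext p
      exact hprod p
    rw [e1, Submodule.span_image]
    exact (Submodule.equivMapOfInjective Φ hΦ _).finrank_eq.symm
  rw [hspan] at hr
  have hm := minors (2 * d + 3) (d + 2 + e) A
  have h4 : (e : ℤ) ≤ ht k (fun i => fsum x y fun j => c (i, j)) ↔
      d + 2 + e ≤ Module.finrank k (Submodule.span k (Set.range A)) := by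
    constructor
    · intro h
      zify
      push_cast at hr
      rw [hr]
      linarith
    · intro h
      zify at h
      push_cast at hr
      rw [hr] at h
      linarith
  rw [h4, hm]
  have hev : ∀ (r : Fin (d + 2 + e) → Fin 3 × Fin (d + 2))
      (c' : Fin (d + 2 + e) → Fin (2 * d + 3)),
      aeval c (Matrix.of fun i j => AX (r i) (c' j)).det = (Matrix.of fun i j => A (r i) (c' j)).det := by
    intro r c'
    rw [AlgHom.map_det]
    congr 1
    ext i j
    show aeval c (∑ j' : Fin (d + 1), X ((r i).1, j') * C (sc lam j' (r i).2 (c' j))) =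
      ∑ j' : Fin (d + 1), c ((r i).1, j') * algebraMap k₀ k (sc lam j' (r i).2 (c' j))
    rw [map_sum]
    refine Finset.sum_congr rfl fun j' _ => ?_
    rw [map_mul, aeval_X, aeval_C]
  constructor
  · rintro ⟨F, ⟨r, c', rfl⟩, hF⟩
    rw [hev] at hF
    exact ⟨r, c', hF⟩
  · rintro ⟨r, c', hF⟩
    exact ⟨_, ⟨r, c', rfl⟩, by rw [hev]; exact hF⟩

end Pool.Agent.Q177.DP
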